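import Pool.Agent.H50.LV.Targets

/-! Row BXM of the board `lve_modules` (problem MP_e21eee_nt): the measure of a box. -/

set_option autoImplicit false

namespace Pool.Agent.H7.LVE

open Finset MeasureTheory Pool.Agent.H24.CL Pool.Agent.H24.LV Pool.Agent.H50.LV

theorem sum_KN' (k : ℕ) : ∑ i : Fin k, (i.val + 1) = KN k := by
  rw [Fin.sum_univ_eq_sum_range (fun i => i + 1) k]
  induction k with
  | zero => rfl
  | succ k ih =>
    rw [sum_range_succ, ih]
    unfold KN
    have h : (k + 1) * (k + 1 + 1) = k * (k + 1) + 2 * (k + 1) := by ring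
    rw [h, Nat.add_mul_div_left _ _ (by norm_num)]

theorem pf_BXM (h1 : T_ARC) : T_BXM := by
  intro k N q f c S hk hN
  have hNr : (0 : ℝ) < N := by exact_mod_cast hN
  rw [measureReal_def, volume_pi_pi, ENNReal.toReal_prod]
  have h2 : ∀ i : Fin k, (volume (Bx N q f c S i)).toReal ≤
      if i.val = 0 then volume.real S else 1 / (N : ℝ) ^ (i.val + 1) := by
    intro i
    unfold Bx
    by_cases hi : i.val = 0
    · rw [if_pos hi, if_pos hi]
      rfl
    · rw [if_neg hi, if_neg hi]
      have h3 := h1 ((f i : ℝ) / q + c i / (N : ℝ) ^ (i.val + 1))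
        ((f i : ℝ) / q + (c i + 1) / (N : ℝ) ^ (i.val + 1)) (by
          have : (c i : ℝ) / (N : ℝ) ^ (i.val + 1) ≤ (c i + 1) / (N : ℝ) ^ (i.val + 1) := by
            apply div_le_div_of_nonneg_right _ (by positivity)
            linarith
          linarith)
      refine h3.trans (le_of_eq ?_)
      ring
  refine (prod_le_prod (fun i _ => ENNReal.toReal_nonneg) fun i _ => h2 i).trans ?_
  obtain ⟨k', rfl⟩ : ∃ k', k = k' + 1 := ⟨k - 1, by omega⟩
  have h4 := sum_KN' (k' + 1)
  rw [Fin.sum_univ_succ] at h4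
  rw [Fin.prod_univ_succ, ← h4]
  have h5 : ∏ i : Fin k', (if (i.succ).val = 0 then volume.real S else
      1 / (N : ℝ) ^ ((i.succ).val + 1)) = 1 / (N : ℝ) ^ (∑ i : Fin k', ((i.succ).val + 1)) := by
    rw [← prod_pow_eq_pow_sum, one_div, ← prod_inv_distrib]
    refine prod_congr rfl fun i _ => ?_
    rw [if_neg (by simp), one_div]
  rw [h5]
  have h6 : ((0 : Fin (k' + 1))).val = 0 := rfl
  rw [if_pos h6, h6, zero_add, pow_add, pow_one]
  apply le_of_eq
  field_simp

end Pool.Agent.H7.LVE
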