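import Pool.Agent.H50.LV.Targets

/-! Row CEL of the board `lve_modules` (problem MP_e21eee_nt): perturbation of the coefficients. -/

set_option autoImplicit false

namespace Pool.Agent.H7.LVE

open Finset MeasureTheory Pool.Agent.H24.CL Pool.Agent.H24.LV Pool.Agent.H50.LV Pool.Agent.H15.KS
open Pool.Agent.H98.KS (ee)
open scoped Polynomial

theorem e_eq_ee (x : ℝ) : e (x : UnitAddCircle) = ee x := by
  unfold e ee
  rw [AddCircle.toCircle_apply_mk, Circle.coe_exp]
  congr 1
  push_cast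
  ring

theorem ee_add' (x y : ℝ) : ee (x + y) = ee x * ee y := by
  unfold ee
  rw [← Complex.exp_add]
  congr 1
  push_cast
  ring

theorem der_bound (k : ℕ) (D : ℝ[X]) (hD : D.natDegree ≤ k) (hc : ∀ j, |D.coeff j| ≤ 1) (y : ℝ)
    (hy : |y| ≤ 1) : |(Polynomial.derivative D).eval y| ≤ ((k : ℝ) + 1) ^ 2 := by
  rw [Polynomial.derivative_eval, Polynomial.sum_over_range' D (by simp) (k + 1) (by omega)]
  refine (abs_sum_le_sum_abs _ _).trans ?_
  have h1 : ∀ j ∈ range (k + 1), |D.coeff j * (j : ℝ) * y ^ (j - 1)| ≤ (k : ℝ) + 1 := by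
    intro j hj
    rw [mem_range] at hj
    rw [abs_mul, abs_mul, abs_pow, Nat.abs_cast]
    have h2 : |y| ^ (j - 1) ≤ 1 := pow_le_one₀ (abs_nonneg _) hy
    have h3 : (j : ℝ) ≤ (k : ℝ) + 1 := by exact_mod_cast hj.le
    calc |D.coeff j| * (j : ℝ) * |y| ^ (j - 1) ≤ 1 * ((k : ℝ) + 1) * 1 := by
          have := hc j
          gcongr
      _ = (k : ℝ) + 1 := by ring
  refine (sum_le_sum h1).trans (le_of_eq ?_)
  rw [sum_const, card_range, nsmul_eq_mul]
  push_cast
  ring

theorem pf_CEL : T_CEL := by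
  intro k
  have hpi := Real.pi_pos
  obtain ⟨K, hK⟩ : ∃ K : ℝ, K = 2 * Real.pi * ((k : ℝ) + 1) ^ 2 := ⟨_, rfl⟩
  have hK0 : 0 ≤ K := by rw [hK]; positivity
  refine ⟨(1 + 2 * K) ^ 2, one_le_pow₀ (by linarith), ?_⟩
  intro P Q t B hP hQ hc hB a b ha hab hb
  have hB0 : 0 ≤ B := by
    have := hB 0 0 (by norm_num) le_rfl (by norm_num)
    exact le_trans (by positivity) this
  obtain ⟨D, hD⟩ : ∃ D : ℝ[X], D = Q - P := ⟨_, rfl⟩
  have hDd : D.natDegree ≤ k := by
    rw [hD]
    exact (Polynomial.natDegree_sub_le Q P).trans (max_le hQ hP)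
  have hDc : ∀ j, |D.coeff j| ≤ 1 := by
    intro j
    rw [hD, Polynomial.coeff_sub, abs_sub_comm]
    exact hc j
  obtain ⟨g, hg⟩ : ∃ g : ℝ → ℂ, g = fun y => ee (t * y + P.eval y) := ⟨_, rfl⟩
  have cg : Continuous g := by
    rw [hg]
    exact continuous_ee'.comp ((continuous_const.mul continuous_id).add P.continuous)
  obtain ⟨G, hG⟩ : ∃ G : ℝ → ℂ, G = fun y => ∫ s in a..y, g s := ⟨_, rfl⟩
  have hGd : ∀ y, HasDerivAt G (g y) y := by
    intro y
    rw [hG]
    exact intervalIntegral.integral_hasDerivAt_right (cg.intervalIntegrable _ _)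
      cg.stronglyMeasurable.stronglyMeasurableAtFilter cg.continuousAt
  have hGb : ∀ y ∈ Set.Icc a b, ‖G y‖ ≤ Real.sqrt B := by
    intro y hy
    have h1 := hB a y ha hy.1 (hy.2.trans hb)
    have h2 : OP P t a y = G y := by
      unfold OP
      rw [hG, hg]
      simp_rw [e_eq_ee]
    rw [h2] at h1
    exact Real.le_sqrt_of_sq_le h1
  obtain ⟨w', hw'⟩ : ∃ w' : ℝ → ℂ, w' = fun y => ee (D.eval y) *
    (2 * Real.pi * ((Polynomial.derivative D).eval y : ℝ) * Complex.I) := ⟨_, rfl⟩
  have hwd : ∀ y, HasDerivAt (fun y => ee (D.eval y)) (w' y) y := by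
    intro y
    rw [hw']
    exact hasDerivAt_ee (fun y => D.eval y) _ y (D.hasDerivAt y)
  have cw' : Continuous w' := by
    rw [hw']
    refine (continuous_ee'.comp D.continuous).mul ?_
    exact (continuous_const.mul (Complex.continuous_ofReal.comp
      (Polynomial.derivative D).continuous)).mul continuous_const
  have hwb : ∀ y ∈ Set.Icc a b, ‖w' y‖ ≤ K := by
    intro y hy
    rw [hw', hK]
    simp only [norm_mul, norm_ee, one_mul, Complex.norm_I, mul_one, Complex.norm_real,
      Complex.norm_ofNat, Real.norm_eq_abs, abs_of_pos hpi]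
    have h1 := der_bound k D hDd hDc y (abs_le.2 ⟨by linarith [hy.1], by linarith [hy.2]⟩)
    gcongr
  have hcont : Continuous fun y => ee (D.eval y) := continuous_ee'.comp D.continuous
  have hip := intervalIntegral.integral_deriv_mul_eq_sub (a := a) (b := b) (u := G)
    (v := fun y => ee (D.eval y)) (u' := g) (v' := w') (fun y _ => hGd y) (fun y _ => hwd y)
    (cg.intervalIntegrable _ _) (cw'.intervalIntegrable _ _)
  have hGc : Continuous G := continuous_iff_continuousAt.2 fun y => (hGd y).continuousAt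
  have hsum : ∫ x in a..b, (g x * ee (D.eval x) + G x * w' x) =
      (∫ x in a..b, g x * ee (D.eval x)) + ∫ x in a..b, G x * w' x :=
    intervalIntegral.integral_add ((cg.mul hcont).intervalIntegrable _ _)
      ((hGc.mul cw').intervalIntegrable _ _)
  rw [hsum] at hip
  have hGa : G a = 0 := by rw [hG]; simp
  rw [hGa, zero_mul, sub_zero] at hip
  have hOQ : OP Q t a b = ∫ y in a..b, g y * ee (D.eval y) := by
    unfold OP
    congr 1
    funext y
    rw [e_eq_ee, hg]
    simp only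
    rw [← ee_add', hD, Polynomial.eval_sub]
    congr 1
    ring
  have hbd : ‖∫ y in a..b, G y * w' y‖ ≤ Real.sqrt B * K * |b - a| := by
    refine intervalIntegral.norm_integral_le_of_norm_le_const fun y hy => ?_
    rw [Set.uIoc_of_le hab] at hy
    have hy' : y ∈ Set.Icc a b := ⟨hy.1.le, hy.2⟩
    rw [norm_mul]
    exact mul_le_mul (hGb y hy') (hwb y hy') (norm_nonneg _) (Real.sqrt_nonneg _)
  have hfin : ‖OP Q t a b‖ ≤ Real.sqrt B * (1 + 2 * K) := by
    have h1 : OP Q t a b = G b * ee (D.eval b) - ∫ y in a..b, G y * w' y := by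
      rw [hOQ, ← hip]
      ring
    rw [h1]
    refine (norm_sub_le _ _).trans ?_
    rw [norm_mul, norm_ee, mul_one]
    have h2 := hGb b ⟨hab, le_rfl⟩
    have h3 : |b - a| ≤ 2 := by rw [abs_of_nonneg (by linarith)]; linarith
    have h4 : Real.sqrt B * K * |b - a| ≤ Real.sqrt B * K * 2 := by
      have := Real.sqrt_nonneg B
      gcongr
    linarith
  calc ‖OP Q t a b‖ ^ 2 ≤ (Real.sqrt B * (1 + 2 * K)) ^ 2 := by gcongr
    _ = (1 + 2 * K) ^ 2 * B := by rw [mul_pow, Real.sq_sqrt hB0]; ring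

end Pool.Agent.H7.LVE
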