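import Pool.Agent.H50.LV.Targets

/-! Row COV of the board `lve_modules` (problem MP_e21eee_nt): the cover. -/

set_option autoImplicit false

namespace Pool.Agent.H7.LVE

open Finset MeasureTheory Pool.Agent.H24.CL Pool.Agent.H24.LV Pool.Agent.H50.LV

theorem pf_COV (h1 : T_AMD) : T_COV := by
  intro k N R M' S hN hR hS w hw
  have hNr : (0 : ℝ) < N := by exact_mod_cast hN
  obtain ⟨q, f, η, τ, ξ, hq, hqR, hwi, hpr, hη, hτ1, hτ0, hw0, hVF⟩ := hw
  have hq0 : (0 : ℤ) < q := by exact_mod_cast hq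
  have hqr : (0 : ℝ) < q := by exact_mod_cast hq
  obtain ⟨f', hf'⟩ : ∃ f' : Fin k → ℤ, f' = fun i => if i.val = 0 then 0 else f i % (q : ℤ) :=
    ⟨_, rfl⟩
  obtain ⟨c, hc⟩ : ∃ c : Fin k → ℤ, c = fun i => if i.val = 0 then 0 else
    ⌊η i * (N : ℝ) ^ (i.val + 1)⌋ := ⟨_, rfl⟩
  have hf0 : ∀ i : Fin k, i.val = 0 → f' i = 0 := fun i hi => by rw [hf']; simp [hi]
  have hf1 : ∀ i : Fin k, i.val ≠ 0 → f' i = f i % (q : ℤ) := fun i hi => by rw [hf']; simp [hi]
  have hc0 : ∀ i : Fin k, i.val = 0 → c i = 0 := fun i hi => by rw [hc]; simp [hi]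
  have hc1 : ∀ i : Fin k, i.val ≠ 0 → c i = ⌊η i * (N : ℝ) ^ (i.val + 1)⌋ :=
    fun i hi => by rw [hc]; simp [hi]
  have hfm : ∀ i : Fin k, i.val ≠ 0 → (q : ℤ) ∣ f i - f' i := by
    intro i hi
    rw [hf1 i hi]
    exact Int.dvd_self_sub_emod
  have hη' : ∀ i : Fin k, i.val ≠ 0 → |η i * (N : ℝ) ^ (i.val + 1)| ≤ R := by
    intro i hi
    have h2 := hη i hi
    have h3 : (N : ℝ) ^ (-((i.val : ℝ) + 1)) = ((N : ℝ) ^ (i.val + 1))⁻¹ := by
      rw [Real.rpow_neg hNr.le, ← Real.rpow_natCast]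
      push_cast
      rfl
    rw [h3, ← div_eq_mul_inv, le_div_iff₀ (by positivity)] at h2
    rwa [abs_mul, abs_of_pos (show (0 : ℝ) < (N : ℝ) ^ (i.val + 1) by positivity)]
  have hcr : ∀ i : Fin k, i.val ≠ 0 → |η i * (N : ℝ) ^ (i.val + 1) - c i| ≤ 1 := by
    intro i hi
    rw [hc1 i hi, abs_le]
    have h2 := Int.floor_le (η i * (N : ℝ) ^ (i.val + 1))
    have h3 := Int.lt_floor_add_one (η i * (N : ℝ) ^ (i.val + 1))
    constructor <;> linarith
  have hPr : Prim q f' := by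
    intro d hd hdi
    refine hpr d hd fun i hi => ?_
    have h2 := hfm i hi
    have h3 : (d : ℤ) ∣ f i - f' i := dvd_trans (by exact_mod_cast hd) h2
    have h4 := dvd_add h3 (hdi i hi)
    rwa [sub_add_cancel] at h4
  have hcD : c ∈ Dc k (⌈R⌉₊ + 1) := by
    unfold Dc
    rw [Fintype.mem_piFinset]
    intro i
    by_cases hi : i.val = 0
    · rw [if_pos hi, mem_singleton]
      exact hc0 i hi
    · rw [if_neg hi, mem_Icc]
      have h2 := abs_le.1 (hη' i hi)
      have h3 := Nat.le_ceil R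
      have h4 := abs_le.1 (hcr i hi)
      constructor
      · have h5 : ((-((⌈R⌉₊ + 1 : ℕ) : ℤ) : ℤ) : ℝ) ≤ (c i : ℝ) := by
          push_cast
          linarith
        exact_mod_cast h5
      · have h5 : (c i : ℝ) ≤ (((⌈R⌉₊ + 1 : ℕ) : ℤ) : ℝ) := by
          push_cast
          linarith
        exact_mod_cast h5
  have hfF : f' ∈ Fq k q := by
    unfold Fq
    rw [Fintype.mem_piFinset]
    intro i
    by_cases hi : i.val = 0
    · rw [if_pos hi, mem_singleton]
      exact hf0 i hi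
    · rw [if_neg hi, mem_Ico, hf1 i hi]
      exact ⟨Int.emod_nonneg _ hq0.ne', Int.emod_lt_of_pos _ hq0⟩
  have hξ : (ξ : UnitAddCircle) ∈ S q f' c := by
    refine hS q f' c hq hqR hPr hcD η τ ξ hcr hτ1 hτ0 ?_
    rw [← h1 k q f f' N η τ ξ hq hfm]
    exact hVF
  simp only [Set.mem_iUnion]
  refine ⟨q, ?_, f', hfF, c, hcD, ?_⟩
  · rw [mem_Icc]
    exact ⟨hq, Nat.le_floor hqR⟩
  · intro i _
    unfold Bx
    by_cases hi : i.val = 0
    · rw [if_pos hi, hw0 i hi]
      exact ⟨hPr, hξ⟩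
    · rw [if_neg hi]
      refine ⟨(f' i : ℝ) / q + η i, ?_, ?_⟩
      · have h2 := Int.floor_le (η i * (N : ℝ) ^ (i.val + 1))
        have h3 := Int.lt_floor_add_one (η i * (N : ℝ) ^ (i.val + 1))
        rw [← hc1 i hi] at h2 h3
        constructor
        · have h4 : (c i : ℝ) / (N : ℝ) ^ (i.val + 1) ≤ η i := by
            rw [div_le_iff₀ (by positivity)]
            exact h2
          linarith
        · have h4 : η i ≤ ((c i : ℝ) + 1) / (N : ℝ) ^ (i.val + 1) := by
            rw [le_div_iff₀ (by positivity)]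
            exact h3.le
          linarith
      · rw [hwi i hi]
        obtain ⟨m, hm⟩ := hfm i hi
        have h2 : (f i : ℝ) / q + η i = ((f' i : ℝ) / q + η i) + (m : ℝ) := by
          have h3 : (f i : ℝ) = f' i + q * m := by
            have h4 : f i = f' i + q * m := by linarith
            exact_mod_cast h4
          rw [h3]
          field_simp
          ring
        have hz : ((m : ℝ) : UnitAddCircle) = 0 :=
          (AddCircle.coe_eq_zero_iff 1).2 ⟨m, by simp⟩
        rw [h2]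
        refine Eq.trans ?_ (AddCircle.coe_add 1 _ _).symm
        rw [hz, add_zero]

end Pool.Agent.H7.LVE
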